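import Pool.Agent.W623.SecH.Stm3

/-!
# The rational points of the curve `t y² = f(x)` over `K(t)`
-/

set_option autoImplicit false

namespace Pool.Agent.W63.SH.Points

open Polynomial Finset

section alg

variable {A : Type} [Field A]

/-- the members of the pencil of `P` and `Q` -/
noncomputable def L (P Q : A[X]) : Option A → A[X]
  | none => Q
  | some θ => P - C θ * Q

theorem wr (P Q : A[X]) (i j : Option A) (h : i ≠ j) :
    ∃ c : A, c ≠ 0 ∧ wronskian (L P Q i) (L P Q j) = C c * wronskian P Q := by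
  rcases i with _ | θ <;> rcases j with _ | η
  · exact absurd rfl h
  · refine ⟨-1, by simp, ?_⟩
    simp only [L, wronskian, derivative_sub, derivative_mul, derivative_C, map_neg, map_one]
    ring
  · refine ⟨1, by simp, ?_⟩
    simp only [L, wronskian, derivative_sub, derivative_mul, derivative_C, map_one]
    ring
  · refine ⟨θ - η, fun h' => h (by rw [sub_eq_zero.1 h']), ?_⟩
    simp only [L, wronskian, derivative_sub, derivative_mul, derivative_C, map_sub]
    ring

theorem cop (P Q : A[X]) (hPQ : IsCoprime P Q) (i j : Option A) (h : i ≠ j) :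
    IsCoprime (L P Q i) (L P Q j) := by
  have h0 : ∀ θ : A, IsCoprime (P - C θ * Q) Q := by
    intro θ
    obtain ⟨a, b, hab⟩ := hPQ
    exact ⟨a, a * C θ + b, by linear_combination hab⟩
  rcases i with _ | θ <;> rcases j with _ | η
  · exact absurd rfl h
  · exact (h0 η).symm
  · exact h0 θ
  · obtain ⟨a, b, hab⟩ := hPQ
    have hne : η - θ ≠ 0 := fun h' => h (by rw [sub_eq_zero.1 h'])
    have hC : (C (η - θ)⁻¹ : A[X]) * (C η - C θ) = 1 := by
      rw [← C_sub, ← C_mul, inv_mul_cancel₀ hne, C_1]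
    refine ⟨C (η - θ)⁻¹ * (a * C η + b), -(C (η - θ)⁻¹ * (a * C θ + b)), ?_⟩
    simp only [L]
    linear_combination (C (η - θ)⁻¹ * (C η - C θ)) * hab + hC

/-- a common divisor of a member of the pencil and of its derivative divides the Wronskian -/
theorem dvd_wr (P Q : A[X]) (i : Option A) (d : A[X]) (h1 : d ∣ L P Q i)
    (h2 : d ∣ derivative (L P Q i)) : d ∣ wronskian P Q := by
  obtain ⟨j, hj⟩ : ∃ j : Option A, i ≠ j := by
    rcases i with _ | θ
    · exact ⟨some 0, by simp⟩
    · exact ⟨none, by simp⟩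
  obtain ⟨c, hc, h⟩ := wr P Q i j hj
  have h3 : d ∣ wronskian (L P Q i) (L P Q j) := by
    unfold wronskian
    exact dvd_sub (h1.mul_right _) (h2.mul_right _)
  rw [h] at h3
  have : wronskian P Q = C c⁻¹ * (C c * wronskian P Q) := by
    rw [← mul_assoc, ← C_mul, inv_mul_cancel₀ hc, C_1, one_mul]
  rw [this]
  exact h3.mul_left _

theorem four (P Q : A[X]) (hPQ : IsCoprime P Q) (e : Fin 4 → Option A)
    (he : Function.Injective e) (d : Fin 4 → A[X])
    (hd : ∀ i, Associated (d i ^ 2) (L P Q (e i))) : wronskian P Q = 0 := by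
  by_contra hW
  have hdvd : ∀ i, d i ∣ L P Q (e i) := fun i =>
    (dvd_pow_self _ two_ne_zero).trans (hd i).dvd
  have hdd : ∀ i, d i ∣ derivative (L P Q (e i)) := by
    intro i
    obtain ⟨u, hu⟩ := hd i
    obtain ⟨c, hc, hcu⟩ := Polynomial.isUnit_iff.1 u.isUnit
    rw [← hu, ← hcu, derivative_mul, derivative_C, mul_zero, add_zero, derivative_pow]
    refine Dvd.dvd.mul_right ?_ _
    refine Dvd.dvd.mul_right ?_ _
    simp
  have hne : ∀ i, L P Q (e i) ≠ 0 := by
    intro i h0
    obtain ⟨j, hj⟩ : ∃ j : Fin 4, i ≠ j := by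
      rcases eq_or_ne i 0 with h | h
      · exact ⟨1, by rw [h]; decide⟩
      · exact ⟨0, h⟩
    obtain ⟨c, hc, h⟩ := wr P Q (e i) (e j) (fun h => hj (he h))
    rw [h0] at h
    have h' : C c * wronskian P Q = 0 := by
      rw [← h]; simp [wronskian]
    rcases mul_eq_zero.1 h' with h1 | h1
    · exact hc (by simpa using h1)
    · exact hW h1
  have hdeg : ∀ i, (L P Q (e i)).natDegree = 2 * (d i).natDegree := by
    intro i
    obtain ⟨u, hu⟩ := hd i
    obtain ⟨c, hc, hcu⟩ := Polynomial.isUnit_iff.1 u.isUnit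
    rw [← hu, ← hcu, natDegree_mul_C hc.ne_zero, natDegree_pow]
  have hprod : (∏ i, d i) ∣ wronskian P Q := by
    apply Finset.prod_dvd_of_coprime
    · intro i _ j _ hij
      exact ((cop P Q hPQ (e i) (e j) (fun h => hij (he h))).of_isCoprime_of_dvd_left
        (hdvd i)).of_isCoprime_of_dvd_right (hdvd j)
    · intro i _
      exact dvd_wr P Q (e i) (d i) (hdvd i) (hdd i)
  have hd0 : ∀ i, d i ≠ 0 := fun i h => hne i (by
    have := hdvd i
    rw [h, zero_dvd_iff] at this
    exact this)
  have h1 := natDegree_le_of_dvd hprod hW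
  rw [natDegree_prod _ _ (fun i _ => hd0 i), Fin.sum_univ_four] at h1
  have h2 : ∀ i j : Fin 4, i ≠ j → (wronskian P Q).natDegree <
      (L P Q (e i)).natDegree + (L P Q (e j)).natDegree := by
    intro i j hij
    obtain ⟨c, hc, h⟩ := wr P Q (e i) (e j) (fun h => hij (he h))
    have h3 : wronskian (L P Q (e i)) (L P Q (e j)) ≠ 0 := by
      rw [h]
      exact mul_ne_zero (by simpa using hc) hW
    have h4 := natDegree_wronskian_lt_add h3
    rw [h, natDegree_C_mul hc] at h4
    exact h4
  have h3 := h2 0 1 (by decide)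
  have h4 := h2 2 3 (by decide)
  rw [hdeg, hdeg] at h3 h4
  omega

/-- the homogenised polynomial is the product of the linear forms -/
theorem homog [IsAlgClosed A] (g : A[X]) (P Q : A[X]) (hQ : Q ≠ 0) :
    ∑ i ∈ range (g.natDegree + 1), C (g.coeff i) * P ^ i * Q ^ (g.natDegree - i) =
      C g.leadingCoeff * (g.roots.map (fun θ => P - C θ * Q)).prod := by
  have hinj := IsFractionRing.injective A[X] (FractionRing A[X])
  apply hinj
  set ι := algebraMap A[X] (FractionRing A[X]) with hι
  have hQ' : ι Q ≠ 0 := fun h => hQ (hinj (by rw [h, map_zero]))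
  have h1 : ι (∑ i ∈ range (g.natDegree + 1), C (g.coeff i) * P ^ i * Q ^ (g.natDegree - i)) =
      (ι Q) ^ g.natDegree * eval₂ (ι.comp C) (ι P / ι Q) g := by
    rw [eval₂_eq_sum_range, map_sum, Finset.mul_sum]
    refine Finset.sum_congr rfl fun i hi => ?_
    have hi' : i ≤ g.natDegree := Nat.lt_succ_iff.1 (Finset.mem_range.1 hi)
    rw [map_mul, map_mul, map_pow, map_pow, div_pow, RingHom.comp_apply]
    have : ι Q ^ g.natDegree = ι Q ^ (g.natDegree - i) * ι Q ^ i := by
      rw [← pow_add, Nat.sub_add_cancel hi']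
    rw [this]
    field_simp
  rw [h1]
  have hs := IsAlgClosed.splits g
  have h2 : eval₂ (ι.comp C) (ι P / ι Q) g =
      ι (C g.leadingCoeff) * (g.roots.map (fun θ => ι P / ι Q - ι (C θ))).prod := by
    conv_lhs => rw [hs.eq_prod_roots]
    rw [eval₂_mul, eval₂_C, eval₂_multiset_prod, Multiset.map_map]
    simp only [Function.comp_def, eval₂_sub, eval₂_X, eval₂_C, RingHom.comp_apply]
  rw [h2]
  have h3 : g.roots.card = g.natDegree := splits_iff_card_roots.1 hs
  rw [← h3, map_mul, map_multiset_prod, Multiset.map_map]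
  have h4 : ∀ s : Multiset A, ι Q ^ s.card * (s.map (fun θ => ι P / ι Q - ι (C θ))).prod =
      (s.map (ι ∘ fun θ => P - C θ * Q)).prod := by
    intro s
    induction s using Multiset.induction_on with
    | empty => simp
    | cons a s ih =>
      rw [Multiset.card_cons, Multiset.map_cons, Multiset.prod_cons, Multiset.map_cons,
        Multiset.prod_cons, ← ih, pow_succ]
      simp only [Function.comp_def, map_sub, map_mul]
      field_simp
  rw [← h4]
  ring

/-- the core statement over an algebraically closed field -/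
theorem core [IsAlgClosed A] (g : A[X]) (hg : g.Separable) (hn : 3 ≤ g.natDegree)
    (P Q U S : A[X]) (hPQ : IsCoprime P Q) (hQ : Q ≠ 0) (hS : S ≠ 0)
    (h : U ^ 2 * Q ^ g.natDegree = S ^ 2 *
      ∑ i ∈ range (g.natDegree + 1), C (g.coeff i) * P ^ i * Q ^ (g.natDegree - i)) :
    wronskian P Q = 0 := by
  classical
  have hg0 : g ≠ 0 := by rintro rfl; simp at hn
  have hlc : g.leadingCoeff ≠ 0 := leadingCoeff_ne_zero.2 hg0
  have hnd : g.roots.Nodup := nodup_roots hg
  have hcard : g.roots.card = g.natDegree := splits_iff_card_roots.1 (IsAlgClosed.splits g)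
  set T : Finset A := ⟨g.roots, hnd⟩ with hT
  have hTc : T.card = g.natDegree := hcard
  rw [homog g P Q hQ] at h
  have hprodT : (g.roots.map (fun θ => P - C θ * Q)).prod = ∏ θ ∈ T, (P - C θ * Q) := rfl
  rw [hprodT] at h
  -- the set of the forms
  obtain ⟨T', hT'c, Z, hZ⟩ : ∃ T' : Finset (Option A), 4 ≤ T'.card ∧ ∃ Z : A[X],
      C g.leadingCoeff * ∏ i ∈ T', L P Q i = Z ^ 2 := by
    rcases Nat.even_or_odd' g.natDegree with ⟨m, hm | hm⟩
    · refine ⟨T.map Function.Embedding.some, ?_, ?_⟩
      · rw [card_map, hTc]; omega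
      · rw [prod_map]
        have e : U ^ 2 * Q ^ g.natDegree = (U * Q ^ m) ^ 2 := by rw [hm]; ring
        rw [e] at h
        have hdv : S ^ 2 ∣ (U * Q ^ m) ^ 2 := ⟨_, h⟩
        obtain ⟨Z, hZ⟩ := (IsIntegrallyClosed.pow_dvd_pow_iff (by norm_num)).1 hdv
        refine ⟨Z, ?_⟩
        apply mul_left_cancel₀ (pow_ne_zero 2 hS)
        calc S ^ 2 * (C g.leadingCoeff * ∏ θ ∈ T, L P Q (Function.Embedding.some θ))
            = (U * Q ^ m) ^ 2 := h.symm
          _ = S ^ 2 * Z ^ 2 := by rw [hZ]; ring
    · refine ⟨insertNone T, ?_, ?_⟩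
      · rw [card_insertNone, hTc]; omega
      · rw [prod_insertNone]
        have e : U ^ 2 * Q ^ g.natDegree * Q = (U * Q ^ (m + 1)) ^ 2 := by rw [hm]; ring
        have hdv : S ^ 2 ∣ (U * Q ^ (m + 1)) ^ 2 := by
          rw [← e, h]
          exact ⟨C g.leadingCoeff * (∏ θ ∈ T, (P - C θ * Q)) * Q, by ring⟩
        obtain ⟨Z, hZ⟩ := (IsIntegrallyClosed.pow_dvd_pow_iff (by norm_num)).1 hdv
        refine ⟨Z, ?_⟩
        apply mul_left_cancel₀ (pow_ne_zero 2 hS)
        calc S ^ 2 * (C g.leadingCoeff * (L P Q none * ∏ θ ∈ T, L P Q (some θ)))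
            = S ^ 2 * (C g.leadingCoeff * ∏ θ ∈ T, (P - C θ * Q)) * Q := by
              simp only [L]; ring
          _ = (U * Q ^ (m + 1)) ^ 2 := by rw [← h, e]
          _ = S ^ 2 * Z ^ 2 := by rw [hZ]; ring
  obtain ⟨F, hFT, hF4⟩ := Finset.exists_subset_card_eq hT'c
  let e := F.equivFinOfCardEq hF4
  have hass : ∀ i ∈ T', ∃ d : A[X], Associated (d ^ 2) (L P Q i) := by
    intro i hi
    have h1 : L P Q i * (C g.leadingCoeff * ∏ j ∈ T'.erase i, L P Q j) = Z ^ 2 := by
      rw [← hZ, ← mul_prod_erase T' _ hi]; ring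
    apply exists_associated_pow_of_mul_eq_pow' _ h1
    refine IsCoprime.mul_right ?_ ?_
    · exact ⟨0, C g.leadingCoeff⁻¹, by
        rw [zero_mul, zero_add, ← C_mul, inv_mul_cancel₀ hlc, C_1]⟩
    · apply IsCoprime.prod_right
      intro j hj
      exact cop P Q hPQ i j (ne_of_mem_erase hj).symm
  choose! d hd using hass
  refine four P Q hPQ (fun i => (e.symm i).1) ?_ (fun i => d (e.symm i).1) ?_
  · intro i j hij
    exact e.symm.injective (Subtype.ext hij)
  · intro i
    exact hd _ (hFT (e.symm i).2)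

end alg


/-- reduced fractions -/
theorem frac {K : Type} {k : Type*} [Field K] [Field k] [Algebra K k] (t : k)
    (ht : Transcendental K t) (htop : IntermediateField.adjoin K {t} = (⊤ : IntermediateField K k))
    (z : k) : ∃ p q : K[X], q ≠ 0 ∧ IsCoprime p q ∧ z = aeval t p / aeval t q := by
  classical
  have hz : z ∈ IntermediateField.adjoin K {t} := by rw [htop]; trivial
  obtain ⟨p, q, h⟩ := (IntermediateField.mem_adjoin_simple_iff K z).1 hz
  by_cases hq : q = 0
  · refine ⟨0, 1, one_ne_zero, isCoprime_one_right, ?_⟩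
    rw [h, hq]; simp
  · letI : GCDMonoid K[X] := UniqueFactorizationMonoid.toGCDMonoid K[X]
    obtain ⟨a, b, ha, hb, hab⟩ := extract_gcd p q
    have hg : gcd p q ≠ 0 := by
      intro h0
      rw [h0, zero_mul] at hb
      exact hq hb
    have hb0 : b ≠ 0 := by
      rintro rfl
      rw [mul_zero] at hb
      exact hq hb
    refine ⟨a, b, hb0, (gcd_isUnit_iff a b).1 hab, ?_⟩
    have hgt : aeval t (gcd p q) ≠ 0 := by
      intro h0
      exact hg (transcendental_iff_injective.1 ht (by rw [h0, map_zero]))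
    have e1 : aeval t p = aeval t (gcd p q) * aeval t a := by rw [← map_mul, ← ha]
    have e2 : aeval t q = aeval t (gcd p q) * aeval t b := by rw [← map_mul, ← hb]
    rw [h, e1, e2, mul_div_mul_left _ _ hgt]

universe u

theorem points : Pool.Agent.W623.SecH.POINTS.{u} := by
  intro K k _ _ _ _ t ht htop f hf hn x y hxy
  classical
  have hinj := transcendental_iff_injective.1 ht
  have hne : ∀ g : K[X], g ≠ 0 → aeval t g ≠ 0 := fun g hg h0 =>
    hg (hinj (by rw [h0, map_zero]))
  obtain ⟨p, q, hq, hpq, hx⟩ := frac t ht htop x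
  obtain ⟨r, s, hs, hrs, hy⟩ := frac t ht htop y
  have hqt := hne q hq
  have hst := hne s hs
  -- the polynomial identity
  have h1 : X * r ^ 2 * q ^ f.natDegree = s ^ 2 *
      ∑ i ∈ range (f.natDegree + 1), C (f.coeff i) * p ^ i * q ^ (f.natDegree - i) := by
    apply hinj
    have hsum : aeval t (∑ i ∈ range (f.natDegree + 1),
        C (f.coeff i) * p ^ i * q ^ (f.natDegree - i)) = (aeval t q) ^ f.natDegree * aeval x f := by
      rw [map_sum, aeval_eq_sum_range (p := f), Finset.mul_sum]
      refine Finset.sum_congr rfl fun i hi => ?_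
      have hi' : i ≤ f.natDegree := Nat.lt_succ_iff.1 (Finset.mem_range.1 hi)
      rw [map_mul, map_mul, map_pow, map_pow, aeval_C, hx, div_pow, Algebra.smul_def]
      have : (aeval t q) ^ f.natDegree = (aeval t q) ^ (f.natDegree - i) * (aeval t q) ^ i := by
        rw [← pow_add, Nat.sub_add_cancel hi']
      rw [this]
      field_simp
    rw [map_mul, map_mul, map_mul, map_pow, map_pow, map_pow, aeval_X, hsum, ← hxy, hy]
    field_simp
  -- base change
  let A := AlgebraicClosure K
  haveI : CharZero A := charZero_of_injective_algebraMap (algebraMap K A).injective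
  let ι : K[X] →+* A[X] := (expand A 2).toRingHom.comp (mapRingHom (algebraMap K A))
  have hιX : ι X = X ^ 2 := by
    show expand A 2 (Polynomial.map (algebraMap K A) X) = X ^ 2
    rw [Polynomial.map_X, expand_X]
  have hιC : ∀ a : K, ι (C a) = C (algebraMap K A a) := by
    intro a
    show expand A 2 (Polynomial.map (algebraMap K A) (C a)) = _
    rw [Polynomial.map_C, expand_C]
  have hιdeg : ∀ g : K[X], (ι g).natDegree = g.natDegree * 2 := by
    intro g
    show (expand A 2 (Polynomial.map (algebraMap K A) g)).natDegree = _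
    rw [natDegree_expand, natDegree_map]
  have hι0 : ∀ g : K[X], g ≠ 0 → ι g ≠ 0 := by
    intro g hg h0
    have h0' : expand A 2 (Polynomial.map (algebraMap K A) g) = 0 := h0
    rw [expand_eq_zero (by norm_num), Polynomial.map_eq_zero] at h0'
    exact hg h0'
  set g : A[X] := f.map (algebraMap K A) with hg
  have hgdeg : g.natDegree = f.natDegree := natDegree_map _
  have hcore := core g (hf.map) (by rw [hgdeg]; exact hn) (ι p) (ι q) (X * ι r) (ι s)
    (hpq.map ι) (hι0 q hq) (hι0 s hs) (by
      have h2 := congrArg ι h1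
      rw [map_mul, map_mul, map_mul, map_pow, map_pow, map_pow, hιX, map_sum] at h2
      rw [hgdeg]
      have h3 : ∑ i ∈ range (f.natDegree + 1), C (g.coeff i) * ι p ^ i *
          ι q ^ (f.natDegree - i) = ∑ i ∈ range (f.natDegree + 1),
          ι (C (f.coeff i) * p ^ i * q ^ (f.natDegree - i)) := by
        refine Finset.sum_congr rfl fun i _ => ?_
        rw [map_mul, map_mul, map_pow, map_pow, hιC, hg, coeff_map]
      rw [h3, ← h2]
      ring)
  obtain ⟨hdp, hdq⟩ := (IsCoprime.wronskian_eq_zero_iff (hpq.map ι)).1 hcore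
  have hp0 : p.natDegree = 0 := by
    have := Polynomial.derivative_eq_zero.1 hdp
    rw [hιdeg] at this
    omega
  have hq0 : q.natDegree = 0 := by
    have := Polynomial.derivative_eq_zero.1 hdq
    rw [hιdeg] at this
    omega
  obtain ⟨a, rfl⟩ := natDegree_eq_zero.1 hp0
  obtain ⟨b, rfl⟩ := natDegree_eq_zero.1 hq0
  have hxθ : algebraMap K k (a / b) = x := by
    rw [hx, aeval_C, aeval_C, map_div₀]
  have hfx : aeval x f = algebraMap K k (f.eval (a / b)) := by
    rw [← hxθ, aeval_algebraMap_apply]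
    rfl
  have hpar : X * r ^ 2 = C (f.eval (a / b)) * s ^ 2 := by
    apply hinj
    rw [map_mul, map_mul, map_pow, map_pow, aeval_X, aeval_C, ← hfx, ← hxy, hy]
    field_simp
  have hr : r = 0 := by
    by_contra hr
    by_cases hc : f.eval (a / b) = 0
    · rw [hc, C_0, zero_mul] at hpar
      rcases mul_eq_zero.1 hpar with h | h
      · exact X_ne_zero h
      · exact hr (pow_eq_zero_iff (two_ne_zero) |>.1 h)
    · have h5 := congrArg natDegree hpar
      rw [natDegree_C_mul hc, natDegree_X_mul (pow_ne_zero 2 hr), natDegree_pow,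
        natDegree_pow] at h5
      omega
  have hy0 : y = 0 := by rw [hy, hr, map_zero, zero_div]
  refine ⟨hy0, a / b, ?_, hxθ⟩
  rw [hy0] at hxy
  have h6 : algebraMap K k (f.eval (a / b)) = 0 := by rw [← hfx, ← hxy]; ring
  exact (algebraMap K k).injective (by rw [h6, map_zero])

end Pool.Agent.W63.SH.Points
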